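import Mathlib

/-! Boundary overlap ratio of congruent plane convex sets. -/

set_option autoImplicit false

open MeasureTheory
open scoped ENNReal

namespace Q191.Tri

/-- the Euclidean plane -/
abbrev Pl : Type := EuclideanSpace ℝ (Fin 2)

/-- `K'` is the image of `K` under an isometry of the plane. -/
def Congr (K K' : Set Pl) : Prop := ∃ g : Pl ≃ᵢ Pl, g '' K = K'

/-- `K'` is the image of `K` under a rotation followed by a translation. -/
def DirectCongr (K K' : Set Pl) : Prop := ∃ c s a b : ℝ, c ^ 2 + s ^ 2 = 1 ∧
  (fun p : Pl => (!₂[c * p 0 - s * p 1 + a, s * p 0 + c * p 1 + b] : Pl)) '' K = K'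

/-- The interiors of `K` and `K'` intersect and `K ≠ K'`. -/
def Overlap (K K' : Set Pl) : Prop := (interior K ∩ interior K').Nonempty ∧ K ≠ K'

/-- `R(K, K') = length(∂K ∩ K') / length(∂K' ∩ K)`, where length is the one-dimensional Hausdorff
measure. -/
noncomputable def R (K K' : Set Pl) : ℝ≥0∞ := μH[1] (frontier K ∩ K') / μH[1] (frontier K' ∩ K)

/-- `M(T)`: the supremum of `R(K, K')` over all overlapping pairs of sets congruent to `T`. -/
noncomputable def M (T : Set Pl) : ℝ≥0∞ :=
  ⨆ (K : Set Pl) (K' : Set Pl) (_ : Congr T K) (_ : Congr T K') (_ : Overlap K K'), R K K'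

/-- The same supremum over the overlapping pairs of sets which are images of `T` under rotations
and translations (no reflections). -/
noncomputable def Mdirect (T : Set Pl) : ℝ≥0∞ :=
  ⨆ (K : Set Pl) (K' : Set Pl) (_ : DirectCongr T K) (_ : DirectCongr T K') (_ : Overlap K K'),
    R K K'

/-- The triangle with vertices `A`, `B`, `C`. -/
def triangle (A B C : Pl) : Set Pl := convexHull ℝ {A, B, C}

/-- The smallest angle of the triangle with vertices `A`, `B`, `C`. -/
noncomputable def smallestAngle (A B C : Pl) : ℝ :=
  min (EuclideanGeometry.angle B A C)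
    (min (EuclideanGeometry.angle A B C) (EuclideanGeometry.angle A C B))

end Q191.Tri
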