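import Pool.Agent.Q191.Tri.Defs

/-! The triangle with sides 5, 5, 8. -/

set_option autoImplicit false

open MeasureTheory Set
open scoped ENNReal

namespace Q191.Tri

/-- the point with coordinates `x`, `y` -/
noncomputable def pt (x y : ℝ) : Pl := !₂[x, y]

@[simp] theorem pt_zero (x y : ℝ) : pt x y 0 = x := rfl
@[simp] theorem pt_one (x y : ℝ) : pt x y 1 = y := rfl

theorem pt_eta (p : Pl) : pt (p 0) (p 1) = p := by
  ext i; fin_cases i <;> rfl

theorem pt_ext {p q : Pl} (h0 : p 0 = q 0) (h1 : p 1 = q 1) : p = q := by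
  ext i; fin_cases i
  · exact h0
  · exact h1

theorem dist_eq (p q : Pl) : dist p q = Real.sqrt ((p 0 - q 0) ^ 2 + (p 1 - q 1) ^ 2) := by
  rw [EuclideanSpace.dist_eq, Fin.sum_univ_two, Real.dist_eq, Real.dist_eq, sq_abs, sq_abs]

/-- the vertices -/
noncomputable def vA : Pl := pt 8 0
noncomputable def vB : Pl := pt 0 0
noncomputable def vC : Pl := pt 4 3

/-- the triangle as an intersection of half planes -/
def H : Set Pl := {p | 0 ≤ p 1 ∧ 0 ≤ 3 * p 0 - 4 * p 1 ∧ 3 * p 0 + 4 * p 1 ≤ 24}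

theorem tri_eq : triangle vA vB vC = H := by
  apply Subset.antisymm
  · apply convexHull_min
    · intro p hp
      rcases hp with rfl | rfl | rfl
      · simp [H, vA]; norm_num
      · simp [H, vB]
      · simp [H, vC]; norm_num
    · intro p hp q hq a b ha hb hab
      obtain ⟨h1, h2, h3⟩ := hp
      obtain ⟨k1, k2, k3⟩ := hq
      refine ⟨?_, ?_, ?_⟩
      · simp only [PiLp.add_apply, PiLp.smul_apply, smul_eq_mul]
        positivity
      · simp only [PiLp.add_apply, PiLp.smul_apply, smul_eq_mul]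
        nlinarith [mul_nonneg ha h2, mul_nonneg hb k2]
      · simp only [PiLp.add_apply, PiLp.smul_apply, smul_eq_mul]
        nlinarith [mul_le_mul_of_nonneg_left h3 ha, mul_le_mul_of_nonneg_left k3 hb]
  · intro p hp
    obtain ⟨h1, h2, h3⟩ := hp
    rw [triangle]
    have hA : vA ∈ convexHull ℝ ({vA, vB, vC} : Set Pl) := subset_convexHull ℝ _ (by simp)
    have hB : vB ∈ convexHull ℝ ({vA, vB, vC} : Set Pl) := subset_convexHull ℝ _ (by simp)
    have hC : vC ∈ convexHull ℝ ({vA, vB, vC} : Set Pl) := subset_convexHull ℝ _ (by simp)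
    have hconv := convex_convexHull ℝ ({vA, vB, vC} : Set Pl)
    have key := hconv.sum_mem (t := Finset.univ)
      (w := ![(3 * p 0 - 4 * p 1) / 24, (24 - 3 * p 0 - 4 * p 1) / 24, p 1 / 3])
      (z := ![vA, vB, vC]) (by
        intro i _
        fin_cases i
        · show 0 ≤ (3 * p 0 - 4 * p 1) / 24
          linarith
        · show 0 ≤ (24 - 3 * p 0 - 4 * p 1) / 24
          linarith
        · show 0 ≤ p 1 / 3
          linarith) (by
        rw [Fin.sum_univ_three]
        show (3 * p 0 - 4 * p 1) / 24 + (24 - 3 * p 0 - 4 * p 1) / 24 + p 1 / 3 = 1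
        ring) (by
        intro i _
        fin_cases i
        · exact hA
        · exact hB
        · exact hC)
    convert key using 1
    rw [Fin.sum_univ_three]
    ext i
    fin_cases i
    · show p 0 = _
      simp [vA, vB, vC]
      ring
    · show p 1 = _
      simp [vA, vB, vC]

/-- the image triangle; the shift is by `(-3δ, -δ)` with `δ = 3/130` -/
def H' : Set Pl := {p | -(3 / 130) ≤ p 1 ∧ -(3 / 26) ≤ 3 * p 0 - 4 * p 1 ∧
  24 * p 0 - 7 * p 1 ≤ 237 / 2}

/-- rotation -/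
noncomputable def rot (p : Pl) : Pl :=
  pt (-(4 / 5) * p 0 + 3 / 5 * p 1) (-(3 / 5) * p 0 - 4 / 5 * p 1)

/-- inverse rotation -/
noncomputable def rotInv (p : Pl) : Pl :=
  pt (-(4 / 5) * p 0 - 3 / 5 * p 1) (3 / 5 * p 0 - 4 / 5 * p 1)

theorem rot_rotInv (p : Pl) : rot (rotInv p) = p := by
  apply pt_ext
  · simp only [rot, rotInv, pt_zero, pt_one]; ring
  · simp only [rot, rotInv, pt_zero, pt_one]; ring

theorem rotInv_rot (p : Pl) : rotInv (rot p) = p := by
  apply pt_ext
  · simp only [rot, rotInv, pt_zero, pt_one]; ring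
  · simp only [rot, rotInv, pt_zero, pt_one]; ring

theorem g_image (g : Pl → Pl)
    (hg0 : ∀ p, g p 0 = -(4 / 5) * p 0 + 3 / 5 * p 1 + (32 / 5 - 9 / 130))
    (hg1 : ∀ p, g p 1 = -(3 / 5) * p 0 - 4 / 5 * p 1 + (24 / 5 - 3 / 130)) :
    g '' H = H' := by
  ext q
  constructor
  · rintro ⟨p, ⟨h1, h2, h3⟩, rfl⟩
    refine ⟨?_, ?_, ?_⟩
    · rw [hg1]; linarith
    · rw [hg0, hg1]; linarith
    · rw [hg0, hg1]; linarith
  · rintro ⟨h1, h2, h3⟩
    refine ⟨rotInv (q - pt (32 / 5 - 9 / 130) (24 / 5 - 3 / 130)), ⟨?_, ?_, ?_⟩, ?_⟩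
    · simp [rotInv]; linarith
    · simp [rotInv]; linarith
    · simp [rotInv]; linarith
    · apply pt_ext
      · rw [hg0]; simp [rotInv]; ring
      · rw [hg1]; simp [rotInv]; ring

theorem direct_H : DirectCongr H H := by
  refine ⟨1, 0, 0, 0, by norm_num, ?_⟩
  have : (fun p : Pl => (!₂[1 * p 0 - 0 * p 1 + 0, 0 * p 0 + 1 * p 1 + 0] : Pl)) = id := by
    funext p
    apply pt_ext
    · simp
    · simp
  rw [this, image_id]

theorem direct_H' : DirectCongr H H' := by
  refine ⟨-(4 / 5), -(3 / 5), 32 / 5 - 9 / 130, 24 / 5 - 3 / 130, by norm_num, ?_⟩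
  apply g_image
  · intro p
    simp
    try ring
  · intro p
    simp
    try ring

theorem direct_congr {K K' : Set Pl} (h : DirectCongr K K') : Congr K K' := by
  obtain ⟨c, s, a, b, hcs, h⟩ := h
  have hiso : Isometry (fun p : Pl => (!₂[c * p 0 - s * p 1 + a, s * p 0 + c * p 1 + b] : Pl)) := by
    apply Isometry.of_dist_eq
    intro p q
    rw [dist_eq, dist_eq]
    congr 1
    show ((c * p 0 - s * p 1 + a) - (c * q 0 - s * q 1 + a)) ^ 2 +
      ((s * p 0 + c * p 1 + b) - (s * q 0 + c * q 1 + b)) ^ 2 = _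
    linear_combination ((p 0 - q 0) ^ 2 + (p 1 - q 1) ^ 2) * hcs
  refine ⟨IsometryEquiv.mk' (fun p : Pl => (!₂[c * p 0 - s * p 1 + a, s * p 0 + c * p 1 + b] : Pl))
    (fun p : Pl => (!₂[c * (p 0 - a) + s * (p 1 - b), -s * (p 0 - a) + c * (p 1 - b)] : Pl))
    ?_ hiso, ?_⟩
  · intro p
    apply pt_ext
    · show c * (c * (p 0 - a) + s * (p 1 - b)) - s * (-s * (p 0 - a) + c * (p 1 - b)) + a = p 0
      linear_combination (p 0 - a) * hcs
    · show s * (c * (p 0 - a) + s * (p 1 - b)) + c * (-s * (p 0 - a) + c * (p 1 - b)) + b = p 1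
      linear_combination (p 1 - b) * hcs
  · exact h

theorem Mdirect_le (T : Set Pl) : Mdirect T ≤ M T := by
  unfold Mdirect M
  refine iSup_mono fun K => iSup_mono fun K' => ?_
  refine iSup_le fun h1 => iSup_le fun h2 => iSup_le fun h3 => ?_
  exact le_iSup_of_le (direct_congr h1) (le_iSup_of_le (direct_congr h2) (le_iSup_of_le h3 le_rfl))

theorem cont0 : Continuous fun p : Pl => p 0 := by fun_prop
theorem cont1 : Continuous fun p : Pl => p 1 := by fun_prop

theorem int_H {p : Pl} (h1 : 0 < p 1) (h2 : 0 < 3 * p 0 - 4 * p 1) (h3 : 3 * p 0 + 4 * p 1 < 24) :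
    p ∈ interior H := by
  have e1 : IsOpen {p : Pl | 0 < p 1} := isOpen_lt continuous_const cont1
  have e2 : IsOpen {p : Pl | 0 < 3 * p 0 - 4 * p 1} := isOpen_lt continuous_const
    ((continuous_const.mul cont0).sub (continuous_const.mul cont1))
  have e3 : IsOpen {p : Pl | 3 * p 0 + 4 * p 1 < 24} := isOpen_lt
    ((continuous_const.mul cont0).add (continuous_const.mul cont1)) continuous_const
  exact interior_maximal (s := H) (t := {p : Pl | 0 < p 1} ∩ ({p : Pl | 0 < 3 * p 0 - 4 * p 1} ∩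
    {p : Pl | 3 * p 0 + 4 * p 1 < 24}))
    (fun p hp => ⟨le_of_lt hp.1, le_of_lt hp.2.1, le_of_lt hp.2.2⟩) (e1.inter (e2.inter e3))
    ⟨h1, h2, h3⟩

theorem int_H' {p : Pl} (h1 : -(3 / 130) < p 1) (h2 : -(3 / 26) < 3 * p 0 - 4 * p 1)
    (h3 : 24 * p 0 - 7 * p 1 < 237 / 2) : p ∈ interior H' := by
  have e1 : IsOpen {p : Pl | -(3 / 130) < p 1} := isOpen_lt continuous_const cont1
  have e2 : IsOpen {p : Pl | -(3 / 26) < 3 * p 0 - 4 * p 1} := isOpen_lt continuous_const
    ((continuous_const.mul cont0).sub (continuous_const.mul cont1))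
  have e3 : IsOpen {p : Pl | 24 * p 0 - 7 * p 1 < 237 / 2} := isOpen_lt
    ((continuous_const.mul cont0).sub (continuous_const.mul cont1)) continuous_const
  exact interior_maximal (s := H') (t := {p : Pl | -(3 / 130) < p 1} ∩
    ({p : Pl | -(3 / 26) < 3 * p 0 - 4 * p 1} ∩ {p : Pl | 24 * p 0 - 7 * p 1 < 237 / 2}))
    (fun p hp => ⟨le_of_lt hp.1, le_of_lt hp.2.1, le_of_lt hp.2.2⟩) (e1.inter (e2.inter e3))
    ⟨h1, h2, h3⟩

theorem closed_H' : IsClosed H' := by
  have e1 : IsClosed {p : Pl | -(3 / 130) ≤ p 1} := isClosed_le continuous_const cont1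
  have e2 : IsClosed {p : Pl | -(3 / 26) ≤ 3 * p 0 - 4 * p 1} := isClosed_le continuous_const
    ((continuous_const.mul cont0).sub (continuous_const.mul cont1))
  have e3 : IsClosed {p : Pl | 24 * p 0 - 7 * p 1 ≤ 237 / 2} := isClosed_le
    ((continuous_const.mul cont0).sub (continuous_const.mul cont1)) continuous_const
  exact e1.inter (e2.inter e3)

/-- a point of `H` which is moved out of `H` in the direction `v` is a boundary point -/
theorem frontier_of {p : Pl} (hp : p ∈ H) (v : Pl)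
    (hv : ∀ t : ℝ, 0 < t → p + t • v ∉ H) : p ∈ frontier H := by
  refine ⟨subset_closure hp, fun hi => ?_⟩
  have hc : Continuous fun t : ℝ => p + t • v := by fun_prop
  have h0 : ∀ᶠ t in nhds (0 : ℝ), p + t • v ∈ interior H := by
    have : (fun t : ℝ => p + t • v) ⁻¹' interior H ∈ nhds (0 : ℝ) := by
      apply hc.continuousAt.preimage_mem_nhds
      simpa using isOpen_interior.mem_nhds hi
    exact this
  obtain ⟨ε, hε, h⟩ := Metric.eventually_nhds_iff.1 h0
  have h2 := h (y := ε / 2) (by rw [dist_zero_right, Real.norm_eq_abs, abs_of_pos (by positivity)]; linarith)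
  exact hv (ε / 2) (by positivity) (interior_subset h2)

theorem overlap : Overlap H H' := by
  refine ⟨⟨pt 4 1, int_H ?_ ?_ ?_, int_H' ?_ ?_ ?_⟩, ?_⟩
  · simp only [pt_zero, pt_one]; norm_num
  · simp only [pt_zero, pt_one]; norm_num
  · simp only [pt_zero, pt_one]; norm_num
  · simp only [pt_zero, pt_one]; norm_num
  · simp only [pt_zero, pt_one]; norm_num
  · simp only [pt_zero, pt_one]; norm_num
  · intro h
    have h8 : pt 8 0 ∈ H := ⟨by simp, by simp, by simp; norm_num⟩
    rw [h] at h8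
    have := h8.2.2
    simp at this
    norm_num at this

/-- coordinates on a segment -/
theorem seg_coord {a b p : Pl} (h : p ∈ segment ℝ a b) : ∃ t : ℝ, 0 ≤ t ∧ t ≤ 1 ∧
    p 0 = a 0 + t * (b 0 - a 0) ∧ p 1 = a 1 + t * (b 1 - a 1) := by
  rw [segment_eq_image'] at h
  obtain ⟨t, ht, rfl⟩ := h
  exact ⟨t, ht.1, ht.2, by simp, by simp⟩

theorem mem_seg {a b p : Pl} (t : ℝ) (h0 : 0 ≤ t) (h1 : t ≤ 1)
    (e0 : p 0 = a 0 + t * (b 0 - a 0)) (e1 : p 1 = a 1 + t * (b 1 - a 1)) :
    p ∈ segment ℝ a b := by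
  rw [segment_eq_image']
  exact ⟨t, ⟨h0, h1⟩, pt_ext (by simp [e0]) (by simp [e1])⟩

/-- the three segments -/
noncomputable def s1 : Set Pl := segment ℝ (pt 0 0) (pt (79 / 16) 0)
noncomputable def s2 : Set Pl := segment ℝ (pt 0 0) (pt 4 3)
noncomputable def s3 : Set Pl := segment ℝ (pt 4 3) (pt (214 / 39) (49 / 26))

theorem s1_sub : s1 ⊆ frontier H ∩ H' := by
  intro p hp
  obtain ⟨t, h0, h1, e0, e1⟩ := seg_coord hp
  simp only [pt_zero, pt_one] at e0 e1
  refine ⟨frontier_of (v := pt 0 (-1)) ⟨?_, ?_, ?_⟩ ?_, ⟨?_, ?_, ?_⟩⟩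
  · rw [e1]; linarith
  · rw [e0, e1]; linarith
  · rw [e0, e1]; linarith
  · intro r hr h
    have := h.1
    simp [e1] at this
    linarith
  · rw [e1]; linarith
  · rw [e0, e1]; linarith
  · rw [e0, e1]; linarith

theorem s2_sub : s2 ⊆ frontier H ∩ H' := by
  intro p hp
  obtain ⟨t, h0, h1, e0, e1⟩ := seg_coord hp
  simp only [pt_zero, pt_one] at e0 e1
  refine ⟨frontier_of (v := pt (-1) 0) ⟨?_, ?_, ?_⟩ ?_, ⟨?_, ?_, ?_⟩⟩
  · rw [e1]; linarith
  · rw [e0, e1]; linarith
  · rw [e0, e1]; linarith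
  · intro r hr h
    have := h.2.1
    simp [e0, e1] at this
    linarith
  · rw [e1]; linarith
  · rw [e0, e1]; linarith
  · rw [e0, e1]; linarith

theorem s3_sub : s3 ⊆ frontier H ∩ H' := by
  intro p hp
  obtain ⟨t, h0, h1, e0, e1⟩ := seg_coord hp
  simp only [pt_zero, pt_one] at e0 e1
  refine ⟨frontier_of (v := pt 1 0) ⟨?_, ?_, ?_⟩ ?_, ⟨?_, ?_, ?_⟩⟩
  · rw [e1]; linarith
  · rw [e0, e1]; linarith
  · rw [e0, e1]; linarith
  · intro r hr h
    have := h.2.2
    simp [e0, e1] at this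
    linarith
  · rw [e1]; linarith
  · rw [e0, e1]; linarith
  · rw [e0, e1]; linarith

/-- the part of the other boundary -/
noncomputable def s4 : Set Pl := segment ℝ (pt (79 / 16) 0) (pt (214 / 39) (49 / 26))

theorem sub_s4 : frontier H' ∩ H ⊆ s4 := by
  rintro p ⟨hf, h1, h2, h3⟩
  rw [closed_H'.frontier_eq] at hf
  obtain ⟨⟨k1, k2, k3⟩, hn⟩ := hf
  have h4 : 24 * p 0 - 7 * p 1 = 237 / 2 := by
    by_contra hne
    exact hn (int_H' (by linarith) (by linarith) (lt_of_le_of_ne k3 hne))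
  refine mem_seg (p 1 * (26 / 49)) (by linarith) (by linarith) ?_ ?_
  · simp only [pt_zero]; linarith
  · simp only [pt_one]; ring

theorem len (a b : Pl) (r : ℝ) (hr : 0 ≤ r) (h : (a 0 - b 0) ^ 2 + (a 1 - b 1) ^ 2 = r ^ 2) :
    μH[1] (segment ℝ a b) = ENNReal.ofReal r := by
  rw [hausdorffMeasure_segment, edist_dist, dist_eq, h, Real.sqrt_sq hr]

theorem len1 : μH[1] s1 = ENNReal.ofReal (79 / 16) := by
  apply len _ _ _ (by norm_num)
  simp only [pt_zero, pt_one]; norm_num

theorem len2 : μH[1] s2 = ENNReal.ofReal 5 := by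
  apply len _ _ _ (by norm_num)
  simp only [pt_zero, pt_one]; norm_num

theorem len3 : μH[1] s3 = ENNReal.ofReal (145 / 78) := by
  apply len _ _ _ (by norm_num)
  simp only [pt_zero, pt_one]; norm_num

theorem len4 : μH[1] s4 = ENNReal.ofReal (1225 / 624) := by
  apply len _ _ _ (by norm_num)
  simp only [pt_zero, pt_one]; norm_num

theorem meas_seg (a b : Pl) : MeasurableSet (segment ℝ a b) := by
  have h : segment ℝ a b = (fun t : ℝ => a + t • (b - a)) '' Icc (0 : ℝ) 1 :=
    segment_eq_image' ℝ a b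
  rw [h]
  have hc : Continuous fun t : ℝ => a + t • (b - a) := by fun_prop
  exact (isCompact_Icc.image hc).isClosed.measurableSet

theorem inter12 : μH[1] (s1 ∩ s2) = 0 := by
  have this' : s1 ∩ s2 ⊆ {pt 0 0} := by
    rintro p ⟨h1, h2⟩
    obtain ⟨t, h0, h1, e0, e1⟩ := seg_coord h1
    obtain ⟨r, k0, k1, f0, f1⟩ := seg_coord h2
    simp only [pt_zero, pt_one] at e0 e1 f0 f1
    apply pt_ext
    · simp only [pt_zero]; linarith
    · simp only [pt_one]; linarith
  have := Measure.nullSingletonClass_hausdorff Pl (d := 1) (by norm_num)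
  exact measure_mono_null this' (measure_singleton _)

theorem inter123 : μH[1] ((s1 ∪ s2) ∩ s3) = 0 := by
  have this' : (s1 ∪ s2) ∩ s3 ⊆ {pt 4 3} := by
    rintro p ⟨h1 | h1, h2⟩
    · obtain ⟨t, h0, h1, e0, e1⟩ := seg_coord h1
      obtain ⟨r, k0, k1, f0, f1⟩ := seg_coord h2
      simp only [pt_zero, pt_one] at e0 e1 f0 f1
      exfalso
      linarith
    · obtain ⟨t, h0, h1, e0, e1⟩ := seg_coord h1
      obtain ⟨r, k0, k1, f0, f1⟩ := seg_coord h2
      simp only [pt_zero, pt_one] at e0 e1 f0 f1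
      apply pt_ext
      · simp only [pt_zero]; linarith
      · simp only [pt_one]; linarith
  have := Measure.nullSingletonClass_hausdorff Pl (d := 1) (by norm_num)
  exact measure_mono_null this' (measure_singleton _)

theorem lower : ENNReal.ofReal (7361 / 624) ≤ μH[1] (frontier H ∩ H') := by
  have h1 := measure_union_add_inter (μ := (μH[1] : Measure Pl)) s1 (t := s2) (meas_seg _ _)
  have h2 := measure_union_add_inter (μ := (μH[1] : Measure Pl)) (s1 ∪ s2) (t := s3) (meas_seg _ _)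
  rw [inter12, add_zero, len1, len2] at h1
  rw [inter123, add_zero, len3, h1] at h2
  have h3 : (μH[1] : Measure Pl) (s1 ∪ s2 ∪ s3) ≤ μH[1] (frontier H ∩ H') :=
    measure_mono (union_subset (union_subset s1_sub s2_sub) s3_sub)
  rw [h2] at h3
  refine le_trans (le_of_eq ?_) h3
  rw [← ENNReal.ofReal_add (by norm_num) (by norm_num),
    ← ENNReal.ofReal_add (by norm_num) (by norm_num)]
  norm_num

theorem upper : μH[1] (frontier H' ∩ H) ≤ ENNReal.ofReal (1225 / 624) := by
  rw [← len4]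
  exact measure_mono sub_s4

theorem R_ge : 6 ≤ R H H' := by
  unfold R
  have h1 : (6 : ℝ≥0∞) ≤ ENNReal.ofReal (7361 / 624) / ENNReal.ofReal (1225 / 624) := by
    rw [← ENNReal.ofReal_div_of_pos (by norm_num)]
    have : (6 : ℝ≥0∞) = ENNReal.ofReal 6 := by norm_num
    rw [this]
    apply ENNReal.ofReal_le_ofReal
    norm_num
  exact h1.trans (ENNReal.div_le_div lower upper)

theorem Mdirect_ge : 6 ≤ Mdirect (triangle vA vB vC) := by
  rw [tri_eq]
  exact R_ge.trans (le_iSup_of_le H (le_iSup_of_le H' (le_iSup_of_le direct_H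
    (le_iSup_of_le direct_H' (le_iSup_of_le overlap le_rfl)))))

theorem int_nonempty : (interior (triangle vA vB vC)).Nonempty := by
  rw [tri_eq]
  exact overlap.1.mono inter_subset_left

theorem inner_eq (u v : Pl) : inner ℝ u v = u 0 * v 0 + u 1 * v 1 := by
  rw [PiLp.inner_apply, Fin.sum_univ_two]
  simp [mul_comm]

theorem norm_eq' (u : Pl) (r : ℝ) (hr : 0 ≤ r) (h : u 0 ^ 2 + u 1 ^ 2 = r ^ 2) : ‖u‖ = r := by
  rw [EuclideanSpace.norm_eq, Fin.sum_univ_two, Real.norm_eq_abs, Real.norm_eq_abs, sq_abs, sq_abs,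
    h, Real.sqrt_sq hr]

theorem angle_of (P Q S : Pl) (r s c : ℝ) (hr : 0 ≤ r) (hs : 0 ≤ s)
    (h1 : (P 0 - Q 0) ^ 2 + (P 1 - Q 1) ^ 2 = r ^ 2)
    (h2 : (S 0 - Q 0) ^ 2 + (S 1 - Q 1) ^ 2 = s ^ 2)
    (h3 : ((P 0 - Q 0) * (S 0 - Q 0) + (P 1 - Q 1) * (S 1 - Q 1)) / (r * s) = c) :
    EuclideanGeometry.angle P Q S = Real.arccos c := by
  unfold EuclideanGeometry.angle InnerProductGeometry.angle
  rw [inner_eq, norm_eq' (P -ᵥ Q) r hr h1, norm_eq' (S -ᵥ Q) s hs h2]
  exact congrArg Real.arccos h3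

theorem angle_A : EuclideanGeometry.angle vB vA vC = Real.arccos (4 / 5) := by
  apply angle_of _ _ _ 8 5 _ (by norm_num) (by norm_num)
  · simp only [vA, vB, pt_zero, pt_one]; norm_num
  · simp only [vA, vC, pt_zero, pt_one]; norm_num
  · simp only [vA, vB, vC, pt_zero, pt_one]; norm_num

theorem angle_B : EuclideanGeometry.angle vA vB vC = Real.arccos (4 / 5) := by
  apply angle_of _ _ _ 8 5 _ (by norm_num) (by norm_num)
  · simp only [vA, vB, pt_zero, pt_one]; norm_num
  · simp only [vB, vC, pt_zero, pt_one]; norm_num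
  · simp only [vA, vB, vC, pt_zero, pt_one]; norm_num

theorem angle_C : EuclideanGeometry.angle vA vC vB = Real.arccos (-(7 / 25)) := by
  apply angle_of _ _ _ 5 5 _ (by norm_num) (by norm_num)
  · simp only [vA, vC, pt_zero, pt_one]; norm_num
  · simp only [vB, vC, pt_zero, pt_one]; norm_num
  · simp only [vA, vB, vC, pt_zero, pt_one]; norm_num

theorem smallest : smallestAngle vA vB vC = Real.arccos (4 / 5) := by
  unfold smallestAngle
  rw [angle_A, angle_B, angle_C]
  rw [min_eq_left (Real.arccos_le_arccos (by norm_num)), min_self]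

theorem csc_eq : 1 / Real.sin (smallestAngle vA vB vC / 2) = Real.sqrt 10 := by
  rw [smallest, Real.sin_half_eq_sqrt (Real.arccos_nonneg _)
    (by linarith [Real.arccos_le_pi (4 / 5), Real.pi_pos]),
    Real.cos_arccos (by norm_num) (by norm_num), one_div, ← Real.sqrt_inv]
  norm_num

end Q191.Tri
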